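import Pool.Agent.KS6_7.KP.Main

/-!
# MP_31f6f1_lc: Max-k-PSP under a fixed polyhedral gauge is solvable in polynomial time, for all k

`PolyTimeSolvableK k d` (in `Pool.Agent.KS6_7.KP.Defs`) says that some polynomial-time Turing
machine computes, from every list of points with rational coordinates, `k` pairwise edge-disjoint
round-trips of maximum total length (or reports that there are none), where the step from `x` to `y`
has length `d (x - y)`.
-/

set_option autoImplicit false

namespace Pool.Agent.Results.MP_31f6f1_lc.PeripateticAllK

open Pool.Agent.H670R2.PSP Pool.Agent.KS6_7.KP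

/-- **Max-k-PSP under a fixed polyhedral gauge is in P, for every fixed `k ≥ 1`.** In every dimension
`s`, with `gauge B x = inf {λ > 0 : x ∈ λ B}` and the distance `gauge B (x - y)` from `x` to `y` (a
norm distance if `B` is centrally symmetric; no symmetry is assumed):

1. for every polytope `B = conv V` with rational vertices and with `0` in its interior, Max-k-PSP
   under `B` is solvable in polynomial time;
2. for every real matrix `A` for which the signs of integer combinations of the entries can be
   computed in polynomial time, Max-k-PSP under the polyhedron `{x | A x ≤ 1}` is solvable in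
   polynomial time (the polyhedron need be neither symmetric nor bounded). -/
theorem result {k s : ℕ} (hk : 1 ≤ k) :
    (∀ (V : Finset (Fin s → ℚ)) (B : Set (Fin s → ℝ)),
      B = convexHull ℝ ((fun (v : Fin s → ℚ) j => (v j : ℝ)) '' V) → 0 ∈ interior B →
      PolyTimeSolvableK k (gauge B)) ∧
    (∀ (m : ℕ) (A : Fin m → Fin s → ℝ), PolyTimeSigns A →
      PolyTimeSolvableK k (gauge {x : Fin s → ℝ | ∀ i, ∑ j, A i j * x j ≤ 1})) := by
  obtain ⟨q, rfl⟩ : ∃ q, k = q + 1 := ⟨k - 1, by omega⟩
  exact ⟨fun V B hB h => solvable_hull V hB h q, fun m A hA => solvable_polyhedron hA q⟩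

end Pool.Agent.Results.MP_31f6f1_lc.PeripateticAllK
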